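import Pool.Agent.K1H79.TW.Stm
import Pool.Agent.K1H79.GE.StmA
import Pool.Agent.K1H79.SX.Stm

/-! # Project TW, part 2 (helper79, MP_695920_nt): the assembly P2, without heavy imports -/

set_option autoImplicit false

namespace Pool.Agent.K1H92.TW

open NumberField
open Pool.Agent.K1H79 Pool.Agent.K1H79.TW

/-- the body of `GE.S_GE` -/
def GE' : Prop := ∀ n : ℕ, Even n → 2 ≤ n → ∀ η : ℝ, 0 < η → ∃ δ C : ℝ, 0 < δ ∧ 0 < C ∧
  ∀ (L : Type) [Field L] [NumberField L], Module.finrank ℚ L = n → GE.NoOm L →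
    (∀ F : IntermediateField ℚ L, Odd (Module.finrank F L) →
      |(discr L : ℝ)| ^ η ≤ |(discr F : ℝ)|) →
    (Nat.card {c : ClassGroup (𝓞 L) // c ^ 3 = 1} : ℝ) ≤ C * |(discr L : ℝ)| ^ (1 / 2 - δ : ℝ)

/-- the body of `RF.S_DISC` -/
def DISC' : Prop := ∀ (L K : Type) [Field L] [NumberField L] [Field K] [NumberField K] [Algebra L K],
  Module.finrank L K = 2 → ∀ ω : K, ω ^ 2 + ω + 1 = 0 → (∀ z : L, z ^ 2 + z + 1 ≠ 0) →
    |(discr L : ℝ)| ^ 2 ≤ |(discr K : ℝ)| ∧
    |(discr K : ℝ)| ≤ 3 ^ (Module.finrank ℚ L) * |(discr L : ℝ)| ^ 2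

/-- the body of `S_CC` -/
def CC' : Prop := ∀ (K : Type) [Field K] [NumberField K] [IsGalois ℚ K] (ω : K), ω ^ 2 + ω + 1 = 0 →
  ∃ L : IntermediateField ℚ K, Module.finrank L K = 2 ∧ GE.NoOm L

/-- the body of `S_OM` -/
def OM' : Prop := DISC' → ∀ (K : Type) [Field K] [NumberField K] (ω : K), ω ^ 2 + ω + 1 = 0 →
  ∀ F : IntermediateField ℚ K, GE.NoOm F → ∃ F' : IntermediateField ℚ K, F ≤ F' ∧
    Module.finrank F K = 2 * Module.finrank F' K ∧
    |(discr F' : ℝ)| ≤ 3 ^ Module.finrank ℚ K * |(discr F : ℝ)| ^ 2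

/-- the body of `S_P2` -/
def P2' : Prop := ∀ n : ℕ, 2 ≤ n → ∀ θ : ℝ, 0 < θ → ∃ δ C : ℝ, 0 < δ ∧ 0 < C ∧
  ∀ (K : Type) [Field K] [NumberField K] [IsGalois ℚ K], Module.finrank ℚ K = n →
    ∀ S : IntermediateField ℚ K, Even (Module.finrank S K) →
      (∀ F : IntermediateField ℚ K, |(discr F : ℝ)| ≤ |(discr K : ℝ)| ^ θ → F ≤ S) →
      (h3 K : ℝ) ≤ C * |(discr K : ℝ)| ^ (1 / 2 - δ)

theorem one_le_D (F : Type) [Field F] [NumberField F] : (1 : ℝ) ≤ |(discr F : ℝ)| := by
  have h := Int.one_le_abs (discr_ne_zero F)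
  exact_mod_cast h

theorem noOm_le {K : Type} [Field K] [NumberField K] {A B : IntermediateField ℚ K} (h : A ≤ B)
    (hB : GE.NoOm B) : GE.NoOm A := by
  intro z hz
  apply hB (IntermediateField.inclusion h z)
  rw [← map_pow, ← map_add]
  have : IntermediateField.inclusion h (z ^ 2 + z) + 1 = IntermediateField.inclusion h (z ^ 2 + z + 1) := by
    rw [map_add (IntermediateField.inclusion h) (z ^ 2 + z) 1, map_one]
  rw [this, hz, map_zero]

theorem discr_bot' (K : Type) [Field K] [NumberField K] :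
    discr (⊥ : IntermediateField ℚ K) = 1 := by
  rw [discr_eq_discr_of_algEquiv _ (IntermediateField.botEquiv ℚ K), Rat.numberField_discr]

/-- divisibility of the degrees -/
theorem dvd_of_le {K : Type} [Field K] [NumberField K] {F S : IntermediateField ℚ K} (h : F ≤ S) :
    Module.finrank S K ∣ Module.finrank F K := IntermediateField.finrank_dvd_of_le_left h

theorem core (hGE : GE') (hT : S_T) (hV : SX.S_TRIV) (hD : DISC') (hCC : CC') (hOM : OM') : P2' := by
  intro n hn2 θ hθ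
  by_cases hn : Even n
  swap
  · refine ⟨1, 1, one_pos, one_pos, fun K _ _ _ hK S hS _ => ?_⟩
    exfalso
    apply hn
    have h1 : Module.finrank ℚ S * Module.finrank S K = Module.finrank ℚ K :=
      Module.finrank_mul_finrank _ _ _
    rw [← hK, ← h1]
    exact hS.mul_left _
  obtain ⟨δ0, C0, hδ0, hC0, hA⟩ := hGE n hn hn2 θ hθ
  have hB : ∃ δ1 C1 : ℝ, 0 < δ1 ∧ δ1 ≤ 1 / 2 ∧ 0 < C1 ∧ (Even (n / 2) → 2 ≤ n / 2 →
      ∀ (L : Type) [Field L] [NumberField L], Module.finrank ℚ L = n / 2 → GE.NoOm L →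
      (∀ F : IntermediateField ℚ L, Odd (Module.finrank F L) →
        |(discr L : ℝ)| ^ (θ / 4) ≤ |(discr F : ℝ)|) →
      (h3 L : ℝ) ≤ C1 * |(discr L : ℝ)| ^ (1 / 2 - δ1 : ℝ)) := by
    by_cases hc : Even (n / 2) ∧ 2 ≤ n / 2
    · obtain ⟨δ, C, hδ, hC, h⟩ := hGE (n / 2) hc.1 hc.2 (θ / 4) (by positivity)
      refine ⟨min δ (1 / 2), C, by positivity, min_le_right _ _, hC, fun _ _ L _ _ h1 h2 h3 => ?_⟩
      refine (h L h1 h2 h3).trans ?_
      apply mul_le_mul_of_nonneg_left _ hC.le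
      apply Real.rpow_le_rpow_of_exponent_le (one_le_D L)
      linarith [min_le_left δ (1 / 2)]
    · exact ⟨1 / 2, 1, by norm_num, le_rfl, one_pos, fun h1 h2 => absurd ⟨h1, h2⟩ hc⟩
  obtain ⟨δ1, C1, hδ1, hδ1', hC1, hB⟩ := hB
  obtain ⟨CT, hCT, hT⟩ := hT n (δ1 / 8) (by positivity)
  obtain ⟨CV, hCV, hV⟩ := hV n
  obtain ⟨D0, hD0⟩ : ∃ D0 : ℝ, D0 = ((3 : ℝ) ^ n) ^ (2 / θ) := ⟨_, rfl⟩
  have hD0p : 0 < D0 := by rw [hD0]; positivity
  obtain ⟨δ, hδ⟩ : ∃ δ : ℝ, δ = min δ0 (δ1 / 4) := ⟨_, rfl⟩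
  have hδp : 0 < δ := by rw [hδ]; positivity
  have hδa : δ ≤ δ0 := by rw [hδ]; exact min_le_left _ _
  have hδb : δ ≤ δ1 / 4 := by rw [hδ]; exact min_le_right _ _
  obtain ⟨C, hC⟩ : ∃ C : ℝ, C = C0 + CV * D0 + CT * C1 * 3 ^ n := ⟨_, rfl⟩
  have hCp : 0 < C := by rw [hC]; positivity
  have hCa : C0 ≤ C := by
    rw [hC]
    have h1 : 0 < CV * D0 := by positivity
    have h2 : 0 < CT * C1 * 3 ^ n := by positivity
    linarith
  have hCb : CV * D0 ≤ C := by
    rw [hC]
    have h2 : 0 < CT * C1 * 3 ^ n := by positivity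
    linarith
  have hCc : CT * C1 * 3 ^ n ≤ C := by
    rw [hC]
    have h1 : 0 < CV * D0 := by positivity
    linarith
  refine ⟨δ, C, hδp, hCp, fun K _ _ _ hK S hS hSF => ?_⟩
  obtain ⟨D, hDK⟩ : ∃ D : ℝ, D = |(discr K : ℝ)| := ⟨_, rfl⟩
  have hD1 : 1 ≤ D := by rw [hDK]; exact one_le_D K
  have hDp : 0 < D := by linarith
  rw [← hDK] at hSF ⊢
  have hone : (1 : ℝ) ≤ D ^ (1 / 2 - δ) := Real.one_le_rpow hD1 (by linarith)
  -- subfields of odd index are not contained in `S`
  have hodd : ∀ F : IntermediateField ℚ K, |(discr F : ℝ)| ≤ D ^ θ → ¬ Odd (Module.finrank F K) := by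
    intro F hF ho
    have h1 := dvd_of_le (hSF F hF)
    obtain ⟨k, hk⟩ := h1
    rw [hk] at ho
    exact (Nat.not_even_iff_odd.2 ho) (hS.mul_right k)
  by_cases hno : GE.NoOm K
  · -- `K` does not contain `ω`
    have h1 := hA K hK hno (fun F hF => by
      by_contra hlt
      rw [not_le, ← hDK] at hlt
      exact hodd F hlt.le hF)
    rw [← hDK] at h1
    refine le_trans h1 ?_
    apply mul_le_mul hCa _ (by positivity) hCp.le
    exact Real.rpow_le_rpow_of_exponent_le hD1 (by linarith)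
  · -- `ω` in `K`
    unfold GE.NoOm at hno
    push Not at hno
    obtain ⟨ω, hω⟩ := hno
    by_cases hsm : D ≤ D0
    · have h1 : (h3 K : ℝ) ≤ CV * |(discr K : ℝ)| := hV K hK
      rw [← hDK] at h1
      calc (h3 K : ℝ) ≤ CV * D := h1
        _ ≤ CV * D0 := mul_le_mul_of_nonneg_left hsm hCV.le
        _ ≤ C := hCb
        _ ≤ C * D ^ (1 / 2 - δ) := le_mul_of_one_le_right hCp.le hone
    · rw [not_le] at hsm
      have h3n : (3 : ℝ) ^ n ≤ D ^ (θ / 2) := by
        have h1 : D0 ^ (θ / 2) ≤ D ^ (θ / 2) := Real.rpow_le_rpow hD0p.le hsm.le (by positivity)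
        have h2 : D0 ^ (θ / 2) = (3 : ℝ) ^ n := by
          rw [hD0, ← Real.rpow_mul (by positivity)]
          have : 2 / θ * (θ / 2) = 1 := by field_simp
          rw [this, Real.rpow_one]
        rwa [h2] at h1
      have hhalf : D ^ (θ / 2) * D ^ (θ / 2) = D ^ θ := by
        rw [← Real.rpow_add hDp]
        congr 1
        ring
      have hhalf1 : 1 ≤ D ^ (θ / 2) := Real.one_le_rpow hD1 (by positivity)
      obtain ⟨L, hL2, hLno⟩ := hCC K ω hω
      have hQL : Module.finrank ℚ L * 2 = n := by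
        rw [← hL2, ← hK]
        exact Module.finrank_mul_finrank _ _ _
      have hQL' : Module.finrank ℚ L = n / 2 := by omega
      -- `n / 2` is even
      have hne : Even (n / 2) := by
        obtain ⟨F1, -, h1, h2⟩ := hOM hD K ω hω ⊥ (noOm_le bot_le hLno)
        rw [discr_bot', hK] at h2
        have h3 : |(discr F1 : ℝ)| ≤ D ^ θ := by
          refine h2.trans ?_
          calc (3 : ℝ) ^ n * |((1 : ℤ) : ℝ)| ^ 2 = 3 ^ n := by norm_num
            _ ≤ D ^ (θ / 2) := h3n
            _ ≤ D ^ (θ / 2) * D ^ (θ / 2) := le_mul_of_one_le_right (by positivity) hhalf1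
            _ = D ^ θ := hhalf
        have h4 := hodd F1 h3
        rw [Nat.not_odd_iff_even] at h4
        have h5 : Module.finrank (⊥ : IntermediateField ℚ K) K = n := by
          rw [IntermediateField.finrank_bot', hK]
        rw [h5] at h1
        have h6 : n / 2 = Module.finrank F1 K := by omega
        rw [h6]
        exact h4
      have hn22 : 2 ≤ n / 2 := by
        obtain ⟨k, hk⟩ := hne
        omega
      obtain ⟨hd1, hd2⟩ := hD L K hL2 ω hω hLno
      rw [← hDK] at hd1 hd2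
      obtain ⟨DL, hDL⟩ : ∃ DL : ℝ, DL = |(discr L : ℝ)| := ⟨_, rfl⟩
      have hDL1 : 1 ≤ DL := by rw [hDL]; exact one_le_D L
      have hDLp : 0 < DL := by linarith
      rw [← hDL] at hd1 hd2
      have hDLD : DL ≤ D := by nlinarith
      have hL := hB hne hn22 L hQL' hLno (by
        intro F hF
        by_contra hlt
        rw [not_le, ← hDL] at hlt
        have hlift : IntermediateField.lift F ≤ L := IntermediateField.lift_le F
        have hQ : Module.finrank ℚ (IntermediateField.lift F) = Module.finrank ℚ F :=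
          (IntermediateField.liftAlgEquiv F).toLinearEquiv.finrank_eq.symm
        have hDd : discr (IntermediateField.lift F) = discr F :=
          (discr_eq_discr_of_algEquiv _ (IntermediateField.liftAlgEquiv F)).symm
        have h8 : Module.finrank ℚ F * Module.finrank F L = Module.finrank ℚ L :=
          Module.finrank_mul_finrank _ _ _
        have h9 : Module.finrank ℚ (IntermediateField.lift F) *
            Module.finrank (IntermediateField.lift F) K = n := by
          rw [Module.finrank_mul_finrank, hK]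
        have h10 : 0 < Module.finrank ℚ F := Module.finrank_pos
        have h11 : Module.finrank (IntermediateField.lift F) K = Module.finrank F L * 2 := by
          apply Nat.eq_of_mul_eq_mul_left h10
          rw [← hQ, h9, hQ, ← mul_assoc, h8, hQL]
        obtain ⟨F2, -, h12, h13⟩ := hOM hD K ω hω (IntermediateField.lift F) (noOm_le hlift hLno)
        rw [hDd, hK] at h13
        have h14 : Module.finrank F2 K = Module.finrank F L := by omega
        have h15 : |(discr F2 : ℝ)| ≤ D ^ θ := by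
          refine h13.trans ?_
          have h16 : |(discr F : ℝ)| ≤ D ^ (θ / 4) :=
            hlt.le.trans (Real.rpow_le_rpow hDLp.le hDLD (by positivity))
          have h17 : |(discr F : ℝ)| ^ 2 ≤ D ^ (θ / 2) := by
            calc |(discr F : ℝ)| ^ 2 ≤ (D ^ (θ / 4)) ^ 2 := pow_le_pow_left₀ (abs_nonneg _) h16 2
              _ = D ^ (θ / 2) := by
                rw [← Real.rpow_natCast, ← Real.rpow_mul hDp.le]
                congr 1
                push_cast
                ring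
          calc (3 : ℝ) ^ n * |(discr F : ℝ)| ^ 2 ≤ D ^ (θ / 2) * D ^ (θ / 2) :=
                mul_le_mul h3n h17 (by positivity) (by positivity)
            _ = D ^ θ := hhalf
        exact hodd F2 h15 (by rw [h14]; exact hF))
      rw [← hDL] at hL
      have hTK := hT L K hK
      rw [← hDK, ← hDL] at hTK
      -- `D_L^(-δ1) ≤ 3^n D^(-δ1/2)`
      have hDLn : DL ^ (-δ1) ≤ 3 ^ n * D ^ (-(δ1 / 2)) := by
        have e1 : D ≤ 3 ^ n * DL ^ 2 := by
          refine hd2.trans ?_
          apply mul_le_mul_of_nonneg_right _ (by positivity)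
          exact pow_le_pow_right₀ (by norm_num) (by omega)
        have e2 : D ^ (δ1 / 2) ≤ 3 ^ n * DL ^ δ1 := by
          calc D ^ (δ1 / 2) ≤ (3 ^ n * DL ^ 2) ^ (δ1 / 2) :=
                Real.rpow_le_rpow hDp.le e1 (by positivity)
            _ = ((3 : ℝ) ^ n) ^ (δ1 / 2) * (DL ^ 2) ^ (δ1 / 2) :=
                Real.mul_rpow (by positivity) (by positivity)
            _ ≤ (3 : ℝ) ^ n * DL ^ δ1 := by
                apply mul_le_mul _ _ (by positivity) (by positivity)
                · calc ((3 : ℝ) ^ n) ^ (δ1 / 2) ≤ ((3 : ℝ) ^ n) ^ (1 : ℝ) :=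
                      Real.rpow_le_rpow_of_exponent_le (one_le_pow₀ (by norm_num)) (by linarith)
                    _ = (3 : ℝ) ^ n := Real.rpow_one _
                · rw [← Real.rpow_natCast, ← Real.rpow_mul hDLp.le]
                  apply le_of_eq
                  congr 1
                  push_cast
                  ring
        rw [Real.rpow_neg hDLp.le, Real.rpow_neg hDp.le, ← div_eq_mul_inv, inv_eq_one_div,
          div_le_div_iff₀ (by positivity) (by positivity), one_mul]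
        exact e2
      have hs : √(D / DL) * DL ^ (1 / 2 - δ1) = D ^ (1 / 2 : ℝ) * DL ^ (-δ1) := by
        rw [Real.sqrt_eq_rpow, Real.div_rpow hDp.le hDLp.le, div_mul_eq_mul_div, mul_div_assoc,
          ← Real.rpow_sub hDLp]
        congr 2
        ring
      calc (h3 K : ℝ) ≤ CT * D ^ (δ1 / 8) * √(D / DL) * h3 L := hTK
        _ ≤ CT * D ^ (δ1 / 8) * √(D / DL) * (C1 * DL ^ (1 / 2 - δ1)) :=
            mul_le_mul_of_nonneg_left hL (by positivity)
        _ = CT * C1 * D ^ (δ1 / 8) * (√(D / DL) * DL ^ (1 / 2 - δ1)) := by ring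
        _ = CT * C1 * D ^ (δ1 / 8) * (D ^ (1 / 2 : ℝ) * DL ^ (-δ1)) := by rw [hs]
        _ ≤ CT * C1 * D ^ (δ1 / 8) * (D ^ (1 / 2 : ℝ) * (3 ^ n * D ^ (-(δ1 / 2)))) := by
            gcongr
        _ = CT * C1 * 3 ^ n * D ^ (δ1 / 8 + (1 / 2 + -(δ1 / 2))) := by
            rw [Real.rpow_add hDp, Real.rpow_add hDp]
            ring
        _ ≤ C * D ^ (1 / 2 - δ) := by
            apply mul_le_mul hCc _ (by positivity) hCp.le
            exact Real.rpow_le_rpow_of_exponent_le hD1 (by linarith)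

end Pool.Agent.K1H92.TW
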