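import Pool.Agent.K1H79.TW.GStm
import Pool.Agent.K1H92.TW.P2Core

/-! # Project TW, part 2 (helper79, MP_695920_nt): P2 -/

set_option autoImplicit false

namespace Pool.Agent.K1H92.TW

open Pool.Agent.K1H79 Pool.Agent.K1H79.TW

theorem t_P2of : S_P2of := fun h1 h2 h3 h4 h5 h6 => core h1 h2 h3 h4 h5 h6

end Pool.Agent.K1H92.TW
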